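import Mathlib
import Pool.Agent.H848R3.Space

set_option autoImplicit false

/-!
The type 1 noncommutative Borsuk-Ulam conjecture: definitions and the criterion for commutative
algebras.
-/

namespace Pool.Agent.Y138.PB

open ContinuousMap Pool.Agent.H848R3

noncomputable section

/-- Unital *-homomorphisms of complex unital *-algebras. -/
def IsUnitalStarHom {A B : Type} [Semiring A] [Algebra ℂ A] [Star A]
    [Semiring B] [Algebra ℂ B] [Star B] (f : A → B) : Prop :=
  f 1 = 1 ∧ (∀ a b, f (a + b) = f a + f b) ∧ (∀ a b, f (a * b) = f a * f b) ∧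
    (∀ (c : ℂ) (a : A), f (c • a) = c • f a) ∧ ∀ a, f (star a) = star (f a)

section Definitions

variable (G X : Type) [TopologicalSpace G] [AddCommGroup G] [TopologicalSpace X]
  [AddAction G X]

/-- Density condition for the coaction `δ(a)(x, g) = a(g x)`: the closed linear span of the
`δ(a) (1 ⊗ h)` is `C(X) ⊗ C(G) = C(X × G)`. -/
def Podles [CompactSpace G] [CompactSpace X] : Prop :=
  closure (Submodule.span ℂ {F : C(X × G, ℂ) | ∃ (a : C(X, ℂ)) (h : C(G, ℂ)),
    ∀ x g, F (x, g) = a (g +ᵥ x) * h g} : Set C(X × G, ℂ)) = Set.univ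

/-- Ellwood's freeness condition: the closed linear span of the `(a ⊗ 1) δ(b)` is
`C(X) ⊗ C(G) = C(X × G)`. -/
def Ellwood [CompactSpace G] [CompactSpace X] : Prop :=
  closure (Submodule.span ℂ {F : C(X × G, ℂ) | ∃ (a b : C(X, ℂ)),
    ∀ x g, F (x, g) = a x * b (g +ᵥ x)} : Set C(X × G, ℂ)) = Set.univ

/-- `f ∈ C([0,1], C(X) ⊗ C(G))` lies in the equivariant noncommutative join of `C(X)` and `C(G)`:
`f(0) ∈ δ(C(X))` and `f(1) ∈ ℂ ⊗ C(G)`. -/
def InJoin (f : C(unitInterval, C(X × G, ℂ))) : Prop :=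
  (∃ a : C(X, ℂ), ∀ x g, f 0 (x, g) = a (g +ᵥ x)) ∧
    ∃ h : C(G, ℂ), ∀ x g, f 1 (x, g) = h g

/-- Equivariance `(id ⊗ Δ) ∘ φ = (φ ⊗ id) ∘ δ` of a map `φ` from `C(X)` to the join, evaluated at
the point `h` in the last leg: `φ(a)(t)(x, g + h) = φ(a_h)(t)(x, g)`, where `a_h` is the slice
`a_h(x) = δ(a)(x, h) = a(h x)` of `δ(a)` at `h`. -/
def Equivariant (φ : C(X, ℂ) → C(unitInterval, C(X × G, ℂ))) : Prop :=
  ∀ (a ah : C(X, ℂ)) (h : G), (∀ x, ah x = a (h +ᵥ x)) →
    ∀ (t : unitInterval) (x : X) (g : G), φ a t (x, g + h) = φ ah t (x, g)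

/-- The action of `G` on `X` is free (pointwise), the coaction of `C(G)` on `C(X)` satisfies the
density condition and Ellwood's freeness condition, and there is an equivariant unital
*-homomorphism from `C(X)` to the equivariant noncommutative join of `C(X)` and `C(G)`. -/
def IsCounterexample [CompactSpace G] [CompactSpace X] : Prop :=
  (∀ (g : G) (x : X), g +ᵥ x = x → g = 0) ∧ Podles G X ∧ Ellwood G X ∧
    ∃ φ : C(X, ℂ) → C(unitInterval, C(X × G, ℂ)),
      IsUnitalStarHom φ ∧ (∀ a, InJoin G X (φ a)) ∧ Equivariant G X φ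

end Definitions

/-- A free compact `G`-space with an equivariant self-map that is homotopic to a constant map gives
a counterexample. -/
theorem isCounterexample_of_homotopy (G X : Type) [TopologicalSpace G] [AddCommGroup G]
    [IsTopologicalAddGroup G] [CompactSpace G] [T2Space G] [TopologicalSpace X] [CompactSpace X]
    [T2Space X] [AddAction G X] [ContinuousVAdd G X]
    (hfree : ∀ (g : G) (x : X), g +ᵥ x = x → g = 0)
    (K : C(unitInterval × X, X)) (c : X) (hK1 : ∀ x, K (1, x) = c)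
    (hK0 : ∀ (g : G) (x : X), K (0, g +ᵥ x) = g +ᵥ K (0, x)) : IsCounterexample G X := by
  let act : C(X × G, X) := ⟨fun q => q.2 +ᵥ q.1, by fun_prop⟩
  let F : C(unitInterval × (X × G), X) := ⟨fun q => q.2.2 +ᵥ K (q.1, q.2.1), by fun_prop⟩
  refine ⟨hfree, ?_, ?_, fun a => (a.comp F).curry, ?_, ?_, ?_⟩
  · have h := dense_products act (ContinuousMap.snd (α := X) (β := G)) (by
      rintro ⟨x, g⟩ ⟨y, h⟩ h1 h2
      have h2' : g = h := h2
      subst h2'
      have h1' : g +ᵥ x = g +ᵥ y := h1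
      have h3 : x = y := by
        have := congrArg (fun z => (-g) +ᵥ z) h1'
        simpa using this
      rw [h3])
    unfold Podles
    rw [← h]
    congr 3
    ext F'
    constructor
    · rintro ⟨a, k, hk⟩
      exact ⟨a, k, by ext ⟨x, g⟩; exact hk x g⟩
    · rintro ⟨a, k, rfl⟩
      exact ⟨a, k, fun _ _ => rfl⟩
  · have h := dense_products (ContinuousMap.fst (α := X) (β := G)) act (by
      rintro ⟨x, g⟩ ⟨y, h⟩ h1 h2
      have h1' : x = y := h1
      subst h1'
      have h2' : g +ᵥ x = h +ᵥ x := h2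
      have h3 : (-h + g) +ᵥ x = x := by
        rw [add_vadd, h2', ← add_vadd]
        simp
      have h4 := hfree _ _ h3
      have h5 : g = h := by
        have h6 : g = h + (-h + g) := by abel
        rw [h6, h4, add_zero]
      rw [h5])
    unfold Ellwood
    rw [← h]
    congr 3
    ext F'
    constructor
    · rintro ⟨a, k, hk⟩
      exact ⟨a, k, by ext ⟨x, g⟩; exact hk x g⟩
    · rintro ⟨a, k, rfl⟩
      exact ⟨a, k, fun _ _ => rfl⟩
  · exact ⟨rfl, fun _ _ => rfl, fun _ _ => rfl, fun _ _ => rfl, fun _ => rfl⟩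
  · intro a
    refine ⟨⟨a.comp ⟨fun x => K (0, x), by fun_prop⟩, ?_⟩,
      ⟨a.comp ⟨fun g => g +ᵥ c, by fun_prop⟩, ?_⟩⟩
    · intro x g
      show a (g +ᵥ K (0, x)) = a (K (0, g +ᵥ x))
      rw [hK0]
    · intro x g
      show a (g +ᵥ K (1, x)) = a (g +ᵥ c)
      rw [hK1]
  · intro a ah h hah t x g
    show a ((g + h) +ᵥ K (t, x)) = ah (g +ᵥ K (t, x))
    rw [hah, ← add_vadd, add_comm g h]


end

end Pool.Agent.Y138.PB
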